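import Pool.Agent.X166.BZH

/-!
# Gaussian monotonicity of the modified Banaszczyk transform at all levels

Q1 of the problem has a positive answer, with the explicit radius `exp (-10 ^ 20 / p ^ 16)`.
-/

set_option autoImplicit false

namespace Pool.Agent.Results.MP_681294_gt.AllLevels

open MeasureTheory ProbabilityTheory Set
open scoped ENNReal Pointwise

/-- The set `Z_K(u)` of the points `y` orthogonal to `u` whose chord `{t | y + t u / |u| ∈ K}` has
one dimensional Gaussian measure at least that of `[-|u|, |u|]`. -/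
def ZK {n : ℕ} (K : Set (EuclideanSpace ℝ (Fin n))) (u : EuclideanSpace ℝ (Fin n)) :
    Set (EuclideanSpace ℝ (Fin n)) :=
  {y | inner ℝ y u = 0 ∧ gaussianReal 0 1 (Icc (-‖u‖) ‖u‖) ≤
    gaussianReal 0 1 {t : ℝ | y + (t / ‖u‖) • u ∈ K}}

open Classical in
/-- The transform `K ∘ u`: `K ∘ 0 = K`, and `K ∘ u = (K + [-u, u]) ∩ (Z_K(u) + ℝ u)` for `u ≠ 0`. -/
noncomputable def transform {n : ℕ} (K : Set (EuclideanSpace ℝ (Fin n)))
    (u : EuclideanSpace ℝ (Fin n)) : Set (EuclideanSpace ℝ (Fin n)) :=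
  if u = 0 then K else
    (K + segment ℝ (-u) u) ∩
      (ZK K u + (Submodule.span ℝ {u} : Set (EuclideanSpace ℝ (Fin n))))

/-- Q1 -/
def Q1 : Prop := ∃ r : ℝ → ℝ, StrictMonoOn r (Ioo 0 1) ∧ (∀ p ∈ Ioo (0 : ℝ) 1, 0 < r p) ∧
  ∀ n : ℕ, 2 ≤ n → ∀ K : Set (EuclideanSpace ℝ (Fin n)), IsClosed K → Convex ℝ K →
    0 < (stdGaussian (EuclideanSpace ℝ (Fin n)) K).toReal →
    (stdGaussian (EuclideanSpace ℝ (Fin n)) K).toReal < 1 →
    ∀ u : EuclideanSpace ℝ (Fin n),
      ‖u‖ ≤ r (stdGaussian (EuclideanSpace ℝ (Fin n)) K).toReal →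
        stdGaussian (EuclideanSpace ℝ (Fin n)) K ≤
          stdGaussian (EuclideanSpace ℝ (Fin n)) (transform K u)

/-- **Positive answer to Q1**, and the explicit radius `exp (-10 ^ 20 / p ^ 16)` at level `p`, valid
in every dimension. -/
theorem result : Q1 ∧
    ∀ (n : ℕ) (K : Set (EuclideanSpace ℝ (Fin n))), IsClosed K → Convex ℝ K →
      ∀ p : ℝ, 0 < p → p ≤ (stdGaussian (EuclideanSpace ℝ (Fin n)) K).toReal →
      ∀ u : EuclideanSpace ℝ (Fin n), ‖u‖ ≤ Real.exp (-(10 ^ 20 / p ^ 16)) →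
        stdGaussian (EuclideanSpace ℝ (Fin n)) K ≤
          stdGaussian (EuclideanSpace ℝ (Fin n)) (transform K u) := by
  have main : ∀ (n : ℕ) (K : Set (EuclideanSpace ℝ (Fin n))), IsClosed K → Convex ℝ K →
      ∀ p : ℝ, 0 < p → p ≤ (stdGaussian (EuclideanSpace ℝ (Fin n)) K).toReal →
      ∀ u : EuclideanSpace ℝ (Fin n), ‖u‖ ≤ Real.exp (-(10 ^ 20 / p ^ 16)) →
        stdGaussian (EuclideanSpace ℝ (Fin n)) K ≤
          stdGaussian (EuclideanSpace ℝ (Fin n)) (transform K u) := by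
    intro n K hK hc p hp0 hp u hu
    have hp1 : p ≤ 1 := by
      refine hp.trans ?_
      have := ENNReal.toReal_mono ENNReal.one_ne_top
        (prob_le_one (μ := stdGaussian (EuclideanSpace ℝ (Fin n))) (s := K))
      simpa using this
    exact Pool.Agent.X166.TR.main_tr n K hK hc p hp0 hp u
      (hu.trans (Pool.Agent.X166.TR.rad_lower hp0 hp1))
  refine ⟨⟨fun p => Real.exp (-(10 ^ 20 / p ^ 16)), ?_, fun p _ => Real.exp_pos _, ?_⟩, main⟩
  · intro p hp q hq hpq
    apply Real.exp_lt_exp.2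
    apply neg_lt_neg
    apply div_lt_div_of_pos_left (by norm_num) (by have := hp.1; positivity)
    exact pow_lt_pow_left₀ hpq hp.1.le (by norm_num)
  · intro n _ K hK hc h0 _ u hu
    exact main n K hK hc _ h0 le_rfl u hu

end Pool.Agent.Results.MP_681294_gt.AllLevels
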